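import Pool.Agent.Helper98.QR.StmtsE

/-!
# Row E03: measurability of the ball classes
-/

set_option autoImplicit false

open MeasureTheory

namespace QR

/-- the conditions on a map `g` that represents an isomorphism of balls -/
def Q03 {W : Type} (ρ : ℕ) (G : BGraph ℕ) (F : BGraph W) (g : W → ℕ) : Prop :=
  (∀ w w' : W, SPR.Near F.c ρ (F.b 0) w → SPR.Near F.c ρ (F.b 0) w' → g w = g w' → w = w') ∧
  (∀ v : ℕ, SPR.Near G.c ρ (G.b 0) v ↔ ∃ w : W, SPR.Near F.c ρ (F.b 0) w ∧ g w = v) ∧
  (∀ w w' : W, SPR.Near F.c ρ (F.b 0) w → SPR.Near F.c ρ (F.b 0) w' →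
    G.c (g w) (g w') = F.c w w') ∧
  (∀ w : W, SPR.Near F.c ρ (F.b 0) w → ((∃ i : ℤ, G.b i = g w) ↔ w ∈ Set.range F.b)) ∧
  (∀ (i : ℤ) (v : ℕ), G.b i = v → SPR.Near G.c ρ (G.b 0) v → |i| ≤ ρ →
    SPR.Near F.c ρ (F.b 0) (F.b i) ∧ g (F.b i) = v)

theorem q03_iff {W : Type} (ρ : ℕ) (G : BGraph ℕ) (F : BGraph W) :
    BIso ρ G F ↔ ∃ g : W → ℕ, Q03 ρ G F g := by
  classical
  constructor
  · rintro ⟨e, h1, h2, h3⟩
    refine ⟨fun w => if h : SPR.Near F.c ρ (F.b 0) w then ((e.symm ⟨w, h⟩ :
      {v // SPR.Near G.c ρ (G.b 0) v}) : ℕ) else 0, ?_, ?_, ?_, ?_, ?_⟩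
    · intro w w' hw hw' h
      simp only [dif_pos hw, dif_pos hw'] at h
      have h4 := e.symm.injective (Subtype.ext h)
      exact congrArg Subtype.val h4
    · intro v
      constructor
      · intro hv
        refine ⟨(e ⟨v, hv⟩ : W), (e ⟨v, hv⟩).2, ?_⟩
        simp only [dif_pos (e ⟨v, hv⟩).2]
        rw [Subtype.coe_eta, Equiv.symm_apply_apply]
      · rintro ⟨w, hw, rfl⟩
        simp only [dif_pos hw]
        exact (e.symm ⟨w, hw⟩).2
    · intro w w' hw hw'
      simp only [dif_pos hw, dif_pos hw']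
      rw [h1, Equiv.apply_symm_apply, Equiv.apply_symm_apply]
    · intro w hw
      simp only [dif_pos hw]
      have h := h2 (e.symm ⟨w, hw⟩)
      rw [Equiv.apply_symm_apply] at h
      exact h
    · intro i v hi hv hiρ
      subst hi
      have h := h3 i hv hiρ
      have hw : SPR.Near F.c ρ (F.b 0) (F.b i) := by
        rw [← h]
        exact (e ⟨G.b i, hv⟩).2
      refine ⟨hw, ?_⟩
      simp only [dif_pos hw]
      have h4 : (⟨F.b i, hw⟩ : {v // SPR.Near F.c ρ (F.b 0) v}) = e ⟨G.b i, hv⟩ :=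
        Subtype.ext h.symm
      rw [h4, Equiv.symm_apply_apply]
  · rintro ⟨g, h0, h1, h2, h3, h4⟩
    let f : {w // SPR.Near F.c ρ (F.b 0) w} → {v // SPR.Near G.c ρ (G.b 0) v} :=
      fun w => ⟨g w, (h1 (g w)).2 ⟨w, w.2, rfl⟩⟩
    have hf : Function.Bijective f := by
      constructor
      · intro w w' h
        apply Subtype.ext
        exact h0 w w' w.2 w'.2 (congrArg Subtype.val h)
      · intro v
        obtain ⟨w, hw, hg⟩ := (h1 v).1 v.2
        exact ⟨⟨w, hw⟩, Subtype.ext hg⟩
    let e := Equiv.ofBijective f hf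
    have he : ∀ v, g (e.symm v : W) = (v : ℕ) := by
      intro v
      have h5 := e.apply_symm_apply v
      exact congrArg Subtype.val h5
    refine ⟨e.symm, ?_, ?_, ?_⟩
    · intro u v
      have h5 := h2 (e.symm u) (e.symm v) (e.symm u).2 (e.symm v).2
      rw [he, he] at h5
      exact h5
    · intro u
      have h5 := h3 (e.symm u) (e.symm u).2
      rw [he] at h5
      exact h5
    · intro i hi hiρ
      obtain ⟨h5, h6⟩ := h4 i (G.b i) rfl hi hiρ
      apply h0 _ _ (e.symm ⟨G.b i, hi⟩).2 h5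
      rw [he, h6]

section

variable {Ω : Type} [MeasurableSpace Ω] (H : Ω → BGraph ℕ)
  (hc : ∀ x y, Measurable (fun ω => (H ω).c x y)) (hb : ∀ i, Measurable (fun ω => (H ω).b i))

include hc in
theorem e03_c (x y k : ℕ) : Measurable (fun ω => (H ω).c x y = k) :=
  measurableSet_setOfPred.1 (hc x y (MeasurableSet.singleton k))

include hb in
theorem e03_b (i : ℤ) (k : ℕ) : Measurable (fun ω => (H ω).b i = k) :=
  measurableSet_setOfPred.1 (hb i (MeasurableSet.singleton k))

include hc in
theorem e03_near (r x y : ℕ) : Measurable (fun ω => SPR.Near (H ω).c r x y) := by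
  induction r generalizing x y with
  | zero => exact measurable_const
  | succ r ih =>
    exact (ih x y).or (Measurable.exists fun z => (ih x z).and (e03_c H hc z y 0).not)

include hc hb in
theorem e03_near0 (r v : ℕ) : Measurable (fun ω => SPR.Near (H ω).c r ((H ω).b 0) v) := by
  have h : (fun ω => SPR.Near (H ω).c r ((H ω).b 0) v) =
      fun ω => ∃ a : ℕ, (H ω).b 0 = a ∧ SPR.Near (H ω).c r a v := by
    funext ω
    apply propext
    constructor
    · intro h
      exact ⟨_, rfl, h⟩
    · rintro ⟨a, rfl, h⟩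
      exact h
  rw [h]
  exact Measurable.exists fun a => (e03_b H hb 0 a).and (e03_near H hc r a v)

include hc hb in
theorem e03_q (ρ : ℕ) {W : Type} [Finite W] (F : BGraph W) (g : W → ℕ) :
    Measurable (fun ω => Q03 ρ (H ω) F g) := by
  unfold Q03
  refine Measurable.and ?_ (Measurable.and ?_ (Measurable.and ?_ (Measurable.and ?_ ?_)))
  · exact measurable_const
  · exact Measurable.forall fun v => (e03_near0 H hc hb ρ v).iff measurable_const
  · exact Measurable.forall fun w => Measurable.forall fun w' =>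
      measurable_const.imp (measurable_const.imp (e03_c H hc _ _ _))
  · exact Measurable.forall fun w => measurable_const.imp
      ((Measurable.exists fun i => e03_b H hb i _).iff measurable_const)
  · exact Measurable.forall fun i => Measurable.forall fun v =>
      (e03_b H hb i v).imp ((e03_near0 H hc hb ρ v).imp (measurable_const.imp measurable_const))

end

theorem st_E03 : ST_E03 := by
  intro Ω _ H hc hb _ ρ F
  have h : {ω | BIso ρ (H ω) F.G} = {ω | ∃ g : Fin (F.1 + 1) → ℕ, Q03 ρ (H ω) F.G g} := by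
    ext ω
    exact q03_iff ρ (H ω) F.G
  rw [h, measurableSet_setOfPred]
  exact Measurable.exists fun g => e03_q H hc hb ρ F.G g

end QR
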